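import Mathlib
import Pool.Agent.Helper38.TM.Defs
import Pool.Agent.Helper38.TW.SqMod

/-!
# TM, leaf A7, part 1: values of a factor at two integers with the same descent data
-/

set_option autoImplicit false

namespace Pool.Agent.Helper32.TM

open Finset Polynomial Pool.Agent.Helper38.TW Pool.Agent.Helper38.TM

theorem sqmod_lin' {g : ℤ[X]} (hg : g.natDegree = 1) {x x' : ℤ} {r : ℚ}
    (h : ((g.eval x : ℤ) : ℚ) * ((g.eval x' : ℤ) : ℚ) = r ^ 2) :
    SqMod (g.map (Int.castRingHom ℚ)) x x' := by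
  obtain ⟨c, e, hge⟩ : ∃ c e : ℤ, g = C c * X + C e := ⟨g.coeff 1, g.coeff 0,
    eq_X_add_C_of_natDegree_le_one hg.le⟩
  have hc : c ≠ 0 := by
    rintro rfl
    rw [hge] at hg
    simp at hg
  have hcQ : (c : ℚ) ≠ 0 := by exact_mod_cast hc
  have h1 : ((c : ℚ) * x + e) * ((c : ℚ) * x' + e) = r ^ 2 := by
    rw [hge] at h
    simp only [eval_add, eval_mul, eval_C, eval_X] at h
    push_cast at h
    exact h
  refine ⟨C (r / c), ?_⟩
  have h3 : g.map (Int.castRingHom ℚ) = C (c : ℚ) * (X - C (-(e : ℚ) / c)) := by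
    rw [hge]
    simp only [Polynomial.map_add, Polynomial.map_mul, Polynomial.map_C, Polynomial.map_X]
    rw [mul_sub, ← C_mul]
    have h4 : (c : ℚ) * (-(e : ℚ) / c) = -e := by field_simp
    rw [h4, C_neg]
    simp
  rw [h3]
  have hu : IsUnit (C (c : ℚ)) := Polynomial.isUnit_C.mpr (isUnit_iff_ne_zero.mpr hcQ)
  rw [hu.mul_left_dvd, dvd_iff_isRoot, IsRoot.def]
  simp only [eval_sub, eval_mul, eval_C, eval_X, eval_pow]
  field_simp
  linear_combination h1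

private theorem coprime_map {F : ℤ[X]} {ι : Type} [Fintype ι] [DecidableEq ι] (dt : FData F ι)
    {i k : ι} (hik : i ≠ k) :
    IsCoprime ((dt.g i).map (Int.castRingHom ℚ)) ((dt.g k).map (Int.castRingHom ℚ)) := by
  obtain ⟨u, v, huv⟩ := dt.bez i k hik
  have hB : (dt.B : ℚ) ≠ 0 := by exact_mod_cast dt.B_ne
  have h := congrArg (Polynomial.map (Int.castRingHom ℚ)) huv
  simp only [Polynomial.map_add, Polynomial.map_mul, Polynomial.map_C] at h
  refine ⟨C ((dt.B : ℚ)⁻¹) * u.map (Int.castRingHom ℚ),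
    C ((dt.B : ℚ)⁻¹) * v.map (Int.castRingHom ℚ), ?_⟩
  rw [mul_assoc, mul_assoc, ← mul_add, h, ← C_mul]
  simp [hB]

theorem sq_of_tuple {F : ℤ[X]} {m : ℕ} (dF : FData F (Fin m)) {q : ℤ[X]}
    (hq : q.map (Int.castRingHom ℚ) ∣ F.map (Int.castRingHom ℚ)) {τ : Fin m → ℤ} {E : Fin m → ℕ}
    {u u' : ℤ} (hu : ∀ l, ∃ v : ℤ, v ≠ 0 ∧ (dF.g l).eval u = τ l * E l * v ^ 2)
    (hu' : ∀ l, ∃ v : ℤ, v ≠ 0 ∧ (dF.g l).eval u' = τ l * E l * v ^ 2) :
    ∃ r : ℚ, ((q.eval u : ℤ) : ℚ) * ((q.eval u' : ℤ) : ℚ) = r ^ 2 := by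
  classical
  obtain ⟨G, hG⟩ : ∃ G : Fin m → ℚ[X], G = fun l => (dF.g l).map (Int.castRingHom ℚ) := ⟨_, rfl⟩
  have hGl : ∀ l, G l = (dF.g l).map (Int.castRingHom ℚ) := fun l => by rw [hG]
  have hcQ : (dF.c : ℚ) ≠ 0 := by exact_mod_cast dF.c_ne
  have hfac : C (dF.b : ℚ) * F.map (Int.castRingHom ℚ) = C (dF.c : ℚ) * ∏ l, G l := by
    have h := congrArg (Polynomial.map (Int.castRingHom ℚ)) dF.fac
    simp only [Polynomial.map_mul, Polynomial.map_C, Polynomial.map_prod] at h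
    rw [hG]
    exact h
  have hcu : IsUnit (C (dF.c : ℚ)) := Polynomial.isUnit_C.mpr (isUnit_iff_ne_zero.mpr hcQ)
  have hq2 : q.map (Int.castRingHom ℚ) ∣ ∏ l, G l := by
    have h1 : q.map (Int.castRingHom ℚ) ∣ C (dF.c : ℚ) * ∏ l, G l := by
      rw [← hfac]
      exact hq.mul_left _
    exact (hcu.dvd_mul_left).1 h1
  obtain ⟨L, hL⟩ : ∃ L : Finset (Fin m), L =
    univ.filter (fun l => G l ∣ q.map (Int.castRingHom ℚ)) := ⟨_, rfl⟩
  have h1 : ∏ l ∈ L, G l ∣ q.map (Int.castRingHom ℚ) := by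
    apply Finset.prod_dvd_of_coprime
    · intro i _ k _ hik
      change IsCoprime (G i) (G k)
      rw [hGl, hGl]
      exact coprime_map dF hik
    · intro l hl
      rw [hL] at hl
      exact (Finset.mem_filter.1 hl).2
  have h2 : q.map (Int.castRingHom ℚ) ∣ ∏ l ∈ L, G l := by
    have h3 : ∏ l, G l = (∏ l ∈ L, G l) *
        ∏ l ∈ univ.filter (fun l => ¬ G l ∣ q.map (Int.castRingHom ℚ)), G l := by
      rw [hL]
      exact (Finset.prod_filter_mul_prod_filter_not _ _ _).symm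
    rw [h3] at hq2
    refine IsCoprime.dvd_of_dvd_mul_right ?_ hq2
    refine IsCoprime.prod_right fun l hl => ?_
    have h4 := (Finset.mem_filter.1 hl).2
    have h5 : Irreducible (G l) := by
      rw [hGl]
      exact dF.irr l
    exact ((Irreducible.coprime_iff_not_dvd h5).2 h4).symm
  obtain ⟨w, hw⟩ := associated_of_dvd_dvd h1 h2
  obtain ⟨κ, -, hκ⟩ := Polynomial.isUnit_iff.1 w.isUnit
  rw [← hκ] at hw
  have hev : ∀ z : ℤ, ((q.eval z : ℤ) : ℚ) = (∏ l ∈ L, (((dF.g l).eval z : ℤ) : ℚ)) * κ := by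
    intro z
    have h7 := congrArg (Polynomial.eval (z : ℚ)) hw
    rw [eval_mul, eval_C, eval_prod, Polynomial.eval_intCast_map, Int.cast_id] at h7
    rw [show ((q.eval z : ℤ) : ℚ) = (Int.castRingHom ℚ) (q.eval z) from rfl, ← h7]
    congr 1
    refine Finset.prod_congr rfl fun l _ => ?_
    rw [hGl, Polynomial.eval_intCast_map, Int.cast_id]
    rfl
  choose v _ hv using hu
  choose v' _ hv' using hu'
  refine ⟨κ * ∏ l ∈ L, ((τ l : ℚ) * E l * v l * v' l), ?_⟩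
  rw [hev u, hev u', mul_pow, ← Finset.prod_pow]
  have h8 : ∀ a b : ℚ, a * κ * (b * κ) = κ ^ 2 * (a * b) := fun a b => by ring
  rw [h8, ← Finset.prod_mul_distrib]
  congr 1
  refine Finset.prod_congr rfl fun l _ => ?_
  rw [hv l, hv' l]
  push_cast
  ring

end Pool.Agent.Helper32.TM
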