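import Mathlib
import Pool.Agent.Helper38.TM.Defs
import Pool.Agent.Helper38.TW.FExists
import Pool.Agent.Helper38.TW.SqCard
import Pool.Agent.Helper32.TW.Split3
import Pool.Agent.Helper32.TM.Sq

/-!
# TM, leaf A7: the degenerate `x` of a cubic with three rational roots

As in `Split3`: some `k ∉ I` has `E k = 1`, `g_k(x) = τ u²`, and `u ∈ XSet F X` for the quartic `F = b c τ q_i q_j`. Two `u`, `u'` with the same descent data for `F` have `q_i(u) q_i(u')`, `q_j(u) q_j(u')` and `(τ u²) (τ u'²)` squares, so `z = τ u²` satisfies `SqMod` for a split cubic: at most `N` numbers `z`, `2 N` numbers `u`.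
-/

set_option autoImplicit false

namespace Pool.Agent.Helper32.TM

open Finset Polynomial Pool.Agent.Helper38.TW Pool.Agent.Helper38.TM Pool.Agent.Helper32.TW

variable {f : ℤ[X]} {ι : Type} [Fintype ι] [DecidableEq ι]

private theorem lin_form {g : ℤ[X]} (hg : g.natDegree = 1) :
    g = C (g.coeff 1) * X + C (g.coeff 0) := eq_X_add_C_of_natDegree_le_one hg.le

private theorem lin_ne {g : ℤ[X]} (hg : g.natDegree = 1) : g.coeff 1 ≠ 0 := by
  have h0 : g ≠ 0 := by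
    rintro rfl
    simp at hg
  have h1 := leadingCoeff_ne_zero.2 h0
  rwa [leadingCoeff, hg] at h1

private theorem lin_eval {g : ℤ[X]} (hg : g.natDegree = 1) (x : ℤ) :
    g.eval x = g.coeff 1 * x + g.coeff 0 := by
  conv_lhs => rw [lin_form hg]
  simp

private theorem cross_ne (dt : FData f ι) {i j : ι} (hij : i ≠ j) (hi : (dt.g i).natDegree = 1)
    (hj : (dt.g j).natDegree = 1) :
    (dt.g i).coeff 1 * (dt.g j).coeff 0 - (dt.g j).coeff 1 * (dt.g i).coeff 0 ≠ 0 := by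
  intro h0
  obtain ⟨u, v, huv⟩ := dt.bez i j hij
  have hai : (((dt.g i).coeff 1 : ℤ) : ℚ) ≠ 0 := by exact_mod_cast lin_ne hi
  have h0' : (((dt.g i).coeff 1 : ℤ) : ℚ) * (((dt.g j).coeff 0 : ℤ) : ℚ) -
      (((dt.g j).coeff 1 : ℤ) : ℚ) * (((dt.g i).coeff 0 : ℤ) : ℚ) = 0 := by exact_mod_cast h0
  obtain ⟨r, hr⟩ : ∃ r : ℚ, (((dt.g i).coeff 1 : ℤ) : ℚ) * r + (((dt.g i).coeff 0 : ℤ) : ℚ) = 0 :=
    ⟨-(((dt.g i).coeff 0 : ℤ) : ℚ) / (((dt.g i).coeff 1 : ℤ) : ℚ), by field_simp; ring⟩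
  have h1 : ((dt.g i).map (Int.castRingHom ℚ)).eval r = 0 := by
    rw [lin_form hi]
    simpa using hr
  have h2 : ((dt.g j).map (Int.castRingHom ℚ)).eval r = 0 := by
    have h3 : (((dt.g j).coeff 1 : ℤ) : ℚ) * r + (((dt.g j).coeff 0 : ℤ) : ℚ) = 0 := by
      apply mul_left_cancel₀ hai
      linear_combination h0' + (((dt.g j).coeff 1 : ℤ) : ℚ) * hr
    rw [lin_form hj]
    simpa using h3
  have h := congrArg (fun P : ℤ[X] => (P.map (Int.castRingHom ℚ)).eval r) huv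
  simp only [Polynomial.map_mul, Polynomial.map_add, map_C, eval_mul, eval_add, eval_C] at h
  rw [h1, h2, mul_zero, mul_zero, add_zero] at h
  have h3 : (Int.castRingHom ℚ) (dt.B : ℤ) ≠ 0 := by
    simpa using dt.B_ne
  exact h3 h.symm

private theorem quad_sqf (α β : ℚ) (hα : α ≠ 0) (hβ : β ≠ 0) :
    Squarefree (C α * X ^ 2 + C β : ℚ[X]) := by
  apply Polynomial.Separable.squarefree
  have hder : derivative (C α * X ^ 2 + C β : ℚ[X]) = C (2 * α) * X := by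
    simp only [derivative_add, derivative_C, add_zero, derivative_C_mul, derivative_X_pow]
    rw [C_mul]
    simp
    ring
  rw [Polynomial.separable_def, hder]
  refine ⟨C β⁻¹, -(C (2 * β)⁻¹ * X), ?_⟩
  have h1 : (C β⁻¹ : ℚ[X]) * C β = 1 := by
    rw [← C_mul, inv_mul_cancel₀ hβ, C_1]
  have h2 : (C (2 * β)⁻¹ : ℚ[X]) * C (2 * α) = C β⁻¹ * C α := by
    rw [← C_mul, ← C_mul]
    congr 1
    field_simp
  linear_combination h1 - X ^ 2 * h2

private theorem qq_map (dt : FData f ι) (k : ι) (τ : ℤ) (i : ι) :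
    (qq dt k τ i).map (Int.castRingHom ℚ) = C ((((dt.g i).coeff 1 * τ : ℤ)) : ℚ) * X ^ 2 +
      C ((((dt.g k).coeff 1 * (dt.g i).coeff 0 - (dt.g i).coeff 1 * (dt.g k).coeff 0 : ℤ)) : ℚ) := by
  rw [qq, Polynomial.map_add, Polynomial.map_mul, Polynomial.map_C, Polynomial.map_C,
    Polynomial.map_pow, Polynomial.map_X]
  rfl

private theorem qq_sqf (dt : FData f ι) (hlin : ∀ i, (dt.g i).natDegree = 1) {k i : ι}
    (hik : i ≠ k) {τ : ℤ} (hτ : τ ≠ 0) : Squarefree ((qq dt k τ i).map (Int.castRingHom ℚ)) := by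
  rw [qq_map]
  apply quad_sqf
  · exact_mod_cast mul_ne_zero (lin_ne (hlin i)) hτ
  · exact_mod_cast cross_ne dt hik.symm (hlin k) (hlin i)

private theorem qq_coprime (dt : FData f ι) (hlin : ∀ i, (dt.g i).natDegree = 1) {k i j : ι}
    (hij : i ≠ j) {τ : ℤ} :
    IsCoprime ((qq dt k τ i).map (Int.castRingHom ℚ)) ((qq dt k τ j).map (Int.castRingHom ℚ)) := by
  rw [qq_map, qq_map]
  obtain ⟨m, hm⟩ : ∃ m : ℚ, m = (((dt.g k).coeff 1 *
      ((dt.g j).coeff 1 * (dt.g i).coeff 0 - (dt.g i).coeff 1 * (dt.g j).coeff 0) : ℤ) : ℚ) :=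
    ⟨_, rfl⟩
  have hm0 : m ≠ 0 := by
    rw [hm]
    exact_mod_cast mul_ne_zero (lin_ne (hlin k)) (cross_ne dt hij.symm (hlin j) (hlin i))
  have h1 : (C m⁻¹ : ℚ[X]) * C m = 1 := by
    rw [← C_mul, inv_mul_cancel₀ hm0, C_1]
  refine ⟨C m⁻¹ * C (((dt.g j).coeff 1 : ℤ) : ℚ), -(C m⁻¹ * C (((dt.g i).coeff 1 : ℤ) : ℚ)), ?_⟩
  rw [← h1, hm]
  push_cast
  simp only [C_mul, C_sub]
  ring

private theorem FF_sqf (dt : FData f ι) (hlin : ∀ i, (dt.g i).natDegree = 1) (k : ι) {τ : ℤ}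
    (hτ : τ ≠ 0) : Squarefree ((FF dt k τ).map (Int.castRingHom ℚ)) := by
  have hT : ((dt.b * dt.c * τ : ℤ) : ℚ) ≠ 0 := by
    exact_mod_cast mul_ne_zero (mul_ne_zero dt.b_ne dt.c_ne) hτ
  have h1 : (FF dt k τ).map (Int.castRingHom ℚ) =
      C ((dt.b * dt.c * τ : ℤ) : ℚ) * ∏ i ∈ univ.erase k, (qq dt k τ i).map (Int.castRingHom ℚ) := by
    rw [FF, Polynomial.map_mul, Polynomial.map_C, Polynomial.map_prod]
    rfl
  rw [h1]
  have hu : IsUnit (C ((dt.b * dt.c * τ : ℤ) : ℚ)) :=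
    Polynomial.isUnit_C.mpr (isUnit_iff_ne_zero.mpr hT)
  rw [(associated_unit_mul_left (∏ i ∈ univ.erase k,
    (qq dt k τ i).map (Int.castRingHom ℚ)) _ hu).squarefree_iff]
  apply Finset.squarefree_prod_of_pairwise_isCoprime
  · intro i _ j _ hij
    exact (qq_coprime dt hlin hij).isRelPrime
  · intro i hi
    exact qq_sqf dt hlin (Finset.ne_of_mem_erase hi) hτ

private theorem qq_deg (dt : FData f ι) (hlin : ∀ i, (dt.g i).natDegree = 1) (k i : ι) {τ : ℤ}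
    (hτ : τ ≠ 0) : (qq dt k τ i).natDegree = 2 := by
  rw [qq, natDegree_add_C, natDegree_C_mul_X_pow 2 _ (mul_ne_zero (lin_ne (hlin i)) hτ)]

private theorem FF_deg (dt : FData f ι) (hlin : ∀ i, (dt.g i).natDegree = 1)
    (hcard : Fintype.card ι = 3) (k : ι) {τ : ℤ} (hτ : τ ≠ 0) : (FF dt k τ).natDegree = 4 := by
  have hq : ∀ i, qq dt k τ i ≠ 0 := by
    intro i h
    have := qq_deg dt hlin k i hτ
    rw [h] at this
    simp at this
  rw [FF, natDegree_C_mul (mul_ne_zero (mul_ne_zero dt.b_ne dt.c_ne) hτ),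
    natDegree_prod _ _ (fun i _ => hq i), Finset.sum_congr rfl (fun i _ => qq_deg dt hlin k i hτ),
    Finset.sum_const, Finset.card_erase_of_mem (Finset.mem_univ k), Finset.card_univ, hcard]
  rfl

private theorem split_point (dt : FData f ι) (hlin : ∀ i, (dt.g i).natDegree = 1)
    (hcard : Fintype.card ι = 3) {D x y t : ℤ} {E : ι → ℕ} {τ : ι → ℤ} (hy : y ≠ 0)
    (hyx : y ^ 2 = D * f.eval x) (hdesc : IsDesc dt D x t E τ) {k : ι} (hk : E k = 1) :
    ∃ u w : ℤ, (dt.g k).eval x = τ k * u ^ 2 ∧ w ≠ 0 ∧ w ^ 2 = D * (FF dt k (τ k)).eval u := by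
  obtain ⟨u, hu0, hu⟩ := hdesc.2.2.2.2.2 k
  rw [hk, Nat.cast_one, mul_one] at hu
  have hu' := hu
  have ha : (dt.g k).coeff 1 ≠ 0 := lin_ne (hlin k)
  have h1 : ∀ i, (qq dt k (τ k) i).eval u = (dt.g k).coeff 1 * (dt.g i).eval x := by
    intro i
    rw [lin_eval (hlin i) x]
    rw [lin_eval (hlin k) x] at hu
    simp only [qq, eval_add, eval_mul, eval_C, eval_pow, eval_X]
    linear_combination (-(dt.g i).coeff 1) * hu
  have h2 : (FF dt k (τ k)).eval u = dt.b * dt.c * τ k *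
      ((dt.g k).coeff 1 ^ 2 * ∏ i ∈ univ.erase k, (dt.g i).eval x) := by
    rw [FF, eval_mul, eval_C, eval_prod, Finset.prod_congr rfl (fun i _ => h1 i),
      Finset.prod_mul_distrib, Finset.prod_const, Finset.card_erase_of_mem (Finset.mem_univ k),
      Finset.card_univ, hcard]
  have h3 : dt.b * f.eval x = dt.c * (τ k * u ^ 2 * ∏ i ∈ univ.erase k, (dt.g i).eval x) := by
    have h := congrArg (Polynomial.eval x) dt.fac
    rw [eval_mul, eval_C, eval_mul, eval_C, eval_prod,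
      ← Finset.mul_prod_erase univ _ (Finset.mem_univ k), hu] at h
    exact h
  have h4 : D * (FF dt k (τ k)).eval u * u ^ 2 = ((dt.g k).coeff 1 * dt.b * y) ^ 2 := by
    rw [h2]
    linear_combination (-(D * dt.b * (dt.g k).coeff 1 ^ 2)) * h3 -
      ((dt.g k).coeff 1 * dt.b) ^ 2 * hyx
  have h5 : u ^ 2 ∣ ((dt.g k).coeff 1 * dt.b * y) ^ 2 :=
    ⟨D * (FF dt k (τ k)).eval u, by rw [← h4]; ring⟩
  obtain ⟨w, hw⟩ := (Int.pow_dvd_pow_iff two_ne_zero).1 h5
  refine ⟨u, w, hu', ?_, ?_⟩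
  · rintro rfl
    rw [mul_zero] at hw
    exact mul_ne_zero (mul_ne_zero ha dt.b_ne) hy hw
  · apply mul_left_cancel₀ (pow_ne_zero 2 hu0)
    rw [hw] at h4
    linear_combination -h4


/-- the linear forms in `z = τ u²` -/
noncomputable def gA (dt : FData f ι) (k i : ι) : ℤ := if i = k then 1 else (dt.g i).coeff 1

/-- constant terms -/
noncomputable def gB (dt : FData f ι) (k i : ι) : ℤ := if i = k then 0 else
  (dt.g k).coeff 1 * (dt.g i).coeff 0 - (dt.g i).coeff 1 * (dt.g k).coeff 0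

/-- the linear factors -/
noncomputable def gh (dt : FData f ι) (k i : ι) : ℤ[X] := C (gA dt k i) * X + C (gB dt k i)

private theorem gA_ne (dt : FData f ι) (hlin : ∀ i, (dt.g i).natDegree = 1) (k i : ι) :
    gA dt k i ≠ 0 := by
  unfold gA
  split_ifs
  · exact one_ne_zero
  · exact lin_ne (hlin i)

private theorem gAB_ne (dt : FData f ι) (hlin : ∀ i, (dt.g i).natDegree = 1) (k : ι) {i j : ι}
    (hij : i ≠ j) : gA dt k i * gB dt k j - gA dt k j * gB dt k i ≠ 0 := by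
  unfold gA gB
  by_cases hi : i = k
  · have hj : j ≠ k := fun h => hij (hi.trans h.symm)
    rw [if_pos hi, if_neg hj, if_neg hj, if_pos hi, one_mul, mul_zero, sub_zero]
    exact cross_ne dt hj.symm (hlin k) (hlin j)
  · by_cases hj : j = k
    · rw [if_neg hi, if_pos hj, if_pos hj, if_neg hi, mul_zero, one_mul, zero_sub]
      exact neg_ne_zero.2 (cross_ne dt (Ne.symm hi) (hlin k) (hlin i))
    · rw [if_neg hi, if_neg hj, if_neg hj, if_neg hi]
      have h1 := cross_ne dt hij (hlin i) (hlin j)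
      have h2 : (dt.g i).coeff 1 * ((dt.g k).coeff 1 * (dt.g j).coeff 0 -
          (dt.g j).coeff 1 * (dt.g k).coeff 0) - (dt.g j).coeff 1 *
          ((dt.g k).coeff 1 * (dt.g i).coeff 0 - (dt.g i).coeff 1 * (dt.g k).coeff 0) =
          (dt.g k).coeff 1 * ((dt.g i).coeff 1 * (dt.g j).coeff 0 -
            (dt.g j).coeff 1 * (dt.g i).coeff 0) := by ring
      rw [h2]
      exact mul_ne_zero (lin_ne (hlin k)) h1

private theorem gh_deg (dt : FData f ι) (hlin : ∀ i, (dt.g i).natDegree = 1) (k i : ι) :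
    (gh dt k i).natDegree = 1 := by
  unfold gh
  exact natDegree_linear (gA_ne dt hlin k i)

private theorem gh_map (dt : FData f ι) (k i : ι) : (gh dt k i).map (Int.castRingHom ℚ) =
    C ((gA dt k i : ℤ) : ℚ) * X + C ((gB dt k i : ℤ) : ℚ) := by
  unfold gh
  simp

private theorem gh_coprime (dt : FData f ι) (hlin : ∀ i, (dt.g i).natDegree = 1) (k : ι)
    {i j : ι} (hij : i ≠ j) :
    IsCoprime ((gh dt k i).map (Int.castRingHom ℚ)) ((gh dt k j).map (Int.castRingHom ℚ)) := by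
  rw [gh_map, gh_map]
  obtain ⟨m, hm⟩ : ∃ m : ℚ, m = ((gA dt k i * gB dt k j - gA dt k j * gB dt k i : ℤ) : ℚ) :=
    ⟨_, rfl⟩
  have hm0 : m ≠ 0 := by
    rw [hm]
    exact_mod_cast gAB_ne dt hlin k hij
  have h1 : (C m⁻¹ : ℚ[X]) * C m = 1 := by
    rw [← C_mul, inv_mul_cancel₀ hm0, C_1]
  refine ⟨-(C m⁻¹ * C ((gA dt k j : ℤ) : ℚ)), C m⁻¹ * C ((gA dt k i : ℤ) : ℚ), ?_⟩
  rw [← h1, hm]
  push_cast
  simp only [C_mul, C_sub]
  ring

private theorem gh_irr (dt : FData f ι) (hlin : ∀ i, (dt.g i).natDegree = 1) (k i : ι) :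
    Squarefree ((gh dt k i).map (Int.castRingHom ℚ)) := by
  apply Irreducible.squarefree
  apply Polynomial.irreducible_of_degree_eq_one
  rw [gh_map]
  exact degree_linear (by exact_mod_cast gA_ne dt hlin k i)

/-- `q_i ∣ F` over `ℚ` -/
private theorem qq_dvd (dt : FData f ι) (k : ι) (τ : ℤ) {i : ι} (hik : i ≠ k) :
    (qq dt k τ i).map (Int.castRingHom ℚ) ∣ (FF dt k τ).map (Int.castRingHom ℚ) := by
  rw [FF, Polynomial.map_mul, Polynomial.map_prod]
  exact Dvd.dvd.mul_left (Finset.dvd_prod_of_mem _ (Finset.mem_erase.2 ⟨hik, Finset.mem_univ i⟩)) _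

/-- descent data of the quartic bound the number of `u` -/
theorem tuple_FF {f : ℤ[X]} {n : ℕ} (dt : FData f (Fin n)) (h3 : f.natDegree = 3)
    (hlin : ∀ i, (dt.g i).natDegree = 1) (k : Fin n) {τ : ℤ} (hτ : τ ≠ 0) {m : ℕ}
    (dF : FData (FF dt k τ) (Fin m)) : ∃ N : ℕ, TupleBound dF N := by
  classical
  obtain ⟨h, hh⟩ : ∃ h : ℤ[X], h = ∏ i, gh dt k i := ⟨_, rfl⟩
  have hmap : h.map (Int.castRingHom ℚ) = ∏ i, (gh dt k i).map (Int.castRingHom ℚ) := by
    rw [hh, Polynomial.map_prod]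
  have hgne : ∀ i, gh dt k i ≠ 0 := by
    intro i h0
    have := gh_deg dt hlin k i
    rw [h0] at this
    simp at this
  have hcard : Fintype.card (Fin n) = 3 := by
    have h1 := sum_deg dt
    rw [Finset.sum_congr rfl (fun i _ => hlin i), h3] at h1
    simpa using h1
  have hdeg : h.natDegree = 3 := by
    rw [hh, natDegree_prod _ _ (fun i _ => hgne i),
      Finset.sum_congr rfl (fun i _ => gh_deg dt hlin k i), Finset.sum_const, Finset.card_univ,
      hcard]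
    rfl
  have hsep : (h.map (Int.castRingHom ℚ)).Separable := by
    rw [PerfectField.separable_iff_squarefree, hmap]
    apply Finset.squarefree_prod_of_pairwise_isCoprime
    · intro i _ j _ hij
      exact (gh_coprime dt hlin k hij).isRelPrime
    · intro i _
      exact gh_irr dt hlin k i
  obtain ⟨N, hN⟩ := sqmod_card h hdeg hsep
  refine ⟨2 * N, fun τ' E' S hS => ?_⟩
  have hZ : (S.image (fun u : ℤ => τ * u ^ 2)).card ≤ N := by
    refine hN _ fun z hz z' hz' => ?_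
    obtain ⟨u, hu, rfl⟩ := Finset.mem_image.1 hz
    obtain ⟨u', hu', rfl⟩ := Finset.mem_image.1 hz'
    rw [hmap]
    refine sqmod_prod _ _ (fun i _ j _ hij => gh_coprime dt hlin k hij) ?_
    intro i _
    by_cases hik : i = k
    · refine sqmod_lin' (r := (τ : ℚ) * u * u') (gh_deg dt hlin k i) ?_
      have e1 : ∀ z : ℤ, (gh dt k i).eval z = z := by
        intro z
        simp [gh, gA, gB, hik]
      rw [e1, e1]
      push_cast
      ring
    · obtain ⟨r, hr⟩ := sq_of_tuple dF (qq_dvd dt k τ hik) (hS u hu) (hS u' hu')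
      refine sqmod_lin' (r := r) (gh_deg dt hlin k i) ?_
      have e1 : ∀ u : ℤ, (gh dt k i).eval (τ * u ^ 2) = (qq dt k τ i).eval u := by
        intro u
        simp only [gh, gA, gB, if_neg hik, qq, eval_add, eval_mul, eval_C, eval_X, eval_pow]
        ring
      rw [e1, e1]
      exact hr
  refine (Finset.card_le_mul_card_image S 2 ?_).trans (Nat.mul_le_mul_left 2 hZ)
  intro z hz
  obtain ⟨u, hu, rfl⟩ := Finset.mem_image.1 hz
  have hsub : S.filter (fun v => τ * v ^ 2 = τ * u ^ 2) ⊆ {u, -u} := by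
    intro v hv
    have h1 := (Finset.mem_filter.1 hv).2
    have h2 : v ^ 2 = u ^ 2 := mul_left_cancel₀ hτ h1
    rw [Finset.mem_insert, Finset.mem_singleton]
    exact sq_eq_sq_iff_eq_or_eq_neg.1 h2
  exact (Finset.card_le_card hsub).trans Finset.card_le_two

theorem split3_x {f : ℤ[X]} {n : ℕ} (dt : FData f (Fin n)) (h3 : f.natDegree = 3)
    (hlin : ∀ i, (dt.g i).natDegree = 1)
    (HF : ∀ (F : ℤ[X]) (m : ℕ) (dF : FData F (Fin m)) (N : ℕ), F.natDegree = 4 →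
      TupleBound dF N → (∀ X : ℕ, (XSet F X).Finite) ∧ ∃ C c : ℝ, 0 < C ∧ 0 < c ∧
        ∀ X : ℕ, 2 ≤ X → ((XSet F X).ncard : ℝ) ≤ C * X / (Real.log X) ^ c) :
    (∀ X : ℕ, (DegX dt X).Finite) ∧ ∃ C c : ℝ, 0 < C ∧ 0 < c ∧ ∀ X : ℕ, 2 ≤ X →
      ((DegX dt X).ncard : ℝ) ≤ C * X / (Real.log X) ^ c := by
  classical
  have hB0 : (dt.B : ℤ) ≠ 0 := by exact_mod_cast dt.B_ne
  have hcard : Fintype.card (Fin n) = 3 := by
    have h1 := sum_deg dt
    rw [Finset.sum_congr rfl (fun i _ => hlin i), h3] at h1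
    simpa using h1
  obtain ⟨Ω, hΩ⟩ : ∃ Ω : Finset (Fin n × ℤ), Ω = univ ×ˢ (divB dt).filter (fun t => t ≠ 0) :=
    ⟨_, rfl⟩
  have hH : ∀ p ∈ Ω, (∀ X : ℕ, (XSet (FF dt p.1 p.2) X).Finite) ∧ ∃ C c : ℝ, 0 < C ∧ 0 < c ∧
      ∀ X : ℕ, 2 ≤ X → ((XSet (FF dt p.1 p.2) X).ncard : ℝ) ≤ C * X / (Real.log X) ^ c := by
    intro p hp
    rw [hΩ, Finset.mem_product, Finset.mem_filter] at hp
    obtain ⟨m, ⟨dF⟩⟩ := exists_fdata (FF dt p.1 p.2) (FF_sqf dt hlin p.1 hp.2.2)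
    obtain ⟨N, hN⟩ := tuple_FF dt h3 hlin p.1 hp.2.2 dF
    exact HF _ m dF N (FF_deg dt hlin hcard p.1 hp.2.2) hN
  have hsub : ∀ X : ℕ, DegX dt X ⊆ ⋃ p ∈ Ω,
      (fun u : ℤ => (p.2 * u ^ 2 - (dt.g p.1).coeff 0) / (dt.g p.1).coeff 1) ''
        XSet (FF dt p.1 p.2) X := by
    rintro X x ⟨D, y, t, E, τ, I, hD, hDX, hy, hyx, hdesc, -, hnd⟩
    unfold NonDeg at hnd
    push Not at hnd
    obtain ⟨-, hc', hE⟩ := hnd
    obtain ⟨k, hk⟩ : ∃ k, k ∉ I := by
      by_contra hcon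
      push Not at hcon
      have h1 : I = univ := Finset.eq_univ_iff_forall.2 hcon
      rw [h1, Finset.card_univ, hcard] at hc'
      exact absurd hc' (lt_irrefl 3)
    have hEne : E k ≠ 0 :=
      Finset.prod_ne_zero_iff.1 hdesc.2.2.2.1.ne_zero k (Finset.mem_univ k)
    have hEk : E k = 1 := by
      have h1 := hE k hk
      omega
    have hτ0 : τ k ≠ 0 := by
      intro h0
      have h1 := hdesc.2.1 k
      rw [h0, zero_dvd_iff] at h1
      exact hB0 h1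
    have hτB : τ k ∈ divB dt := by
      have h1 := hdesc.2.1 k
      have h2 : |τ k| ≤ (dt.B : ℤ) := Int.le_of_dvd (by positivity) ((abs_dvd _ _).mpr h1)
      rw [divB, Finset.mem_filter, Finset.mem_Icc]
      exact ⟨abs_le.mp h2, h1⟩
    obtain ⟨u, w, hxu, hw0, hw⟩ := split_point dt hlin hcard hy hyx hdesc hEk
    rw [Set.mem_iUnion₂]
    refine ⟨(k, τ k), ?_, u, ⟨D, w, hD, hDX, hw0, hw⟩, ?_⟩
    · rw [hΩ, Finset.mem_product, Finset.mem_filter]
      exact ⟨Finset.mem_univ _, hτB, hτ0⟩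
    · rw [lin_eval (hlin k)] at hxu
      change (τ k * u ^ 2 - (dt.g k).coeff 0) / (dt.g k).coeff 1 = x
      rw [← hxu, add_sub_cancel_right]
      exact Int.mul_ediv_cancel_left _ (lin_ne (hlin k))
  have hfinU : ∀ X : ℕ, (⋃ p ∈ Ω,
      (fun u : ℤ => (p.2 * u ^ 2 - (dt.g p.1).coeff 0) / (dt.g p.1).coeff 1) ''
        XSet (FF dt p.1 p.2) X).Finite := fun X =>
    Set.Finite.biUnion (Finset.finite_toSet Ω) fun p hp => ((hH p hp).1 X).image _
  refine ⟨fun X => (hfinU X).subset (hsub X), ?_⟩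
  have hgood : Good (fun X => ∑ p ∈ Ω, ((XSet (FF dt p.1 p.2) X).ncard : ℝ)) :=
    good_sum Ω (fun p X => ((XSet (FF dt p.1 p.2) X).ncard : ℝ)) fun p hp => (hH p hp).2
  obtain ⟨C, c, hC, hc, h⟩ := hgood
  refine ⟨C, c, hC, hc, fun X hX => le_trans ?_ (h X hX)⟩
  have h1 := (Set.ncard_le_ncard (hsub X) (hfinU X)).trans (Finset.set_ncard_biUnion_le Ω _)
  have h2 : (DegX dt X).ncard ≤ ∑ p ∈ Ω, (XSet (FF dt p.1 p.2) X).ncard :=
    h1.trans (Finset.sum_le_sum fun p hp => Set.ncard_image_le ((hH p hp).1 X))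
  have h4 : ((DegX dt X).ncard : ℝ) ≤ ∑ p ∈ Ω, ((XSet (FF dt p.1 p.2) X).ncard : ℝ) := by
    exact_mod_cast h2
  exact h4

end Pool.Agent.Helper32.TM
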